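import Pool.Agent.N226.KZ.CorC

/-!
# Lattice knots: the counts are regular to all orders
-/

set_option autoImplicit false

namespace Pool.Agent.Results.MP_aea6d5_co.AllOrders

open Finset Filter Topology KN

/-- Let `Q` be a class of knot types (for instance one knot type), `p_n = pq Q n` the number of
polygons of length `n` in `ℤ³` whose knot type is in `Q`, `μ = gr Q` their growth rate, and
`Δ_r (n)` the `r`-th difference `∑_{i ≤ r} (-1)^i C(r, i) log (p_{n + 2 i} / μ ^ (n + 2 i))`.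
All statements are for even `n = 2 k`.

(1) If `Q` is closed under connected sums (for instance the unknot) then, for every `r ≥ 1`,
`|Δ_r (n)| ≤ C (log (μ ^ n / p_n) / n) ^ (r / 2)` for all large `n`.

(2) If `Q` is any class of knot types and `|log (p_n / μ ^ n)| ≤ c log n` for all large `n`, then
`|Δ_r (n)| ≤ C (log n / n) ^ (r / 2)` for every `r ≥ 1` and all large `n`; (3) the hypothesis holds
if `p_n` has the asymptotic form `A n ^ (α - 3) μ ^ n` with `A > 0`.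

(4) If `Q` is any class of knot types and `p_n ≤ μ ^ n exp (φ n)` for all large `n`, where `φ` is
monotone, `φ n ≥ log n`, `φ (2 n) ≤ D φ n` and `φ n / n → 0`, then for every `r ≥ 1` there are
`δ > 0` and `C` such that `|Δ_r (n)| ≤ C ((φ n + |log (p_n / μ ^ n)|) / n) ^ (r / 2)` for all large
`n` with `|log (p_n / μ ^ n)| ≤ δ n`; (5) every class has such a `φ`. -/
theorem result :
    (∀ Q : List Dir → Prop, KClass Q → (∃ w, SAP w ∧ Q w) →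
      (CSum Q → ∀ r : ℕ, 1 ≤ r → ∃ C : ℝ, ∀ᶠ k : ℕ in atTop,
        |∑ i ∈ range (r + 1), (-1 : ℝ) ^ i * (r.choose i : ℝ) *
          Real.log (pq Q (2 * k + 2 * i) / gr Q ^ (2 * k + 2 * i))| ≤
          C * Real.sqrt (Real.log (gr Q ^ (2 * k) / pq Q (2 * k)) / (2 * k)) ^ r) ∧
      (∀ c : ℝ, (∀ᶠ k : ℕ in atTop,
          |Real.log (pq Q (2 * k) / gr Q ^ (2 * k))| ≤ c * Real.log (2 * k)) →
        ∀ r : ℕ, 1 ≤ r → ∃ C : ℝ, ∀ᶠ k : ℕ in atTop,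
          |∑ i ∈ range (r + 1), (-1 : ℝ) ^ i * (r.choose i : ℝ) *
            Real.log (pq Q (2 * k + 2 * i) / gr Q ^ (2 * k + 2 * i))| ≤
            C * Real.sqrt (Real.log (2 * k) / (2 * k)) ^ r) ∧
      (∀ A α : ℝ, 0 < A →
        Tendsto (fun k : ℕ => pq Q (2 * k) / ((2 * k : ℝ) ^ (α - 3) * gr Q ^ (2 * k))) atTop
          (𝓝 A) →
        ∃ c : ℝ, ∀ᶠ k : ℕ in atTop,
          |Real.log (pq Q (2 * k) / gr Q ^ (2 * k))| ≤ c * Real.log (2 * k)) ∧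
      (∀ φ : ℕ → ℝ, Monotone φ → (∀ n : ℕ, 2 ≤ n → Real.log n ≤ φ n) →
        (∃ D : ℝ, ∀ n : ℕ, 2 ≤ n → φ (2 * n) ≤ D * φ n) →
        Tendsto (fun n : ℕ => φ n / n) atTop (𝓝 0) →
        (∀ᶠ k : ℕ in atTop, pq Q (2 * k) ≤ gr Q ^ (2 * k) * Real.exp (φ (2 * k))) →
        ∀ r : ℕ, 1 ≤ r → ∃ δ C : ℝ, 0 < δ ∧ ∀ᶠ k : ℕ in atTop,
          |Real.log (pq Q (2 * k) / gr Q ^ (2 * k))| ≤ δ * (2 * k) →
          |∑ i ∈ range (r + 1), (-1 : ℝ) ^ i * (r.choose i : ℝ) *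
            Real.log (pq Q (2 * k + 2 * i) / gr Q ^ (2 * k + 2 * i))| ≤
            C * Real.sqrt ((φ (2 * k) + |Real.log (pq Q (2 * k) / gr Q ^ (2 * k))|) /
              (2 * k)) ^ r) ∧
      ∃ φ : ℕ → ℝ, Monotone φ ∧ (∀ n : ℕ, 2 ≤ n → Real.log n ≤ φ n) ∧
        (∃ D : ℝ, ∀ n : ℕ, 2 ≤ n → φ (2 * n) ≤ D * φ n) ∧
        Tendsto (fun n : ℕ => φ n / n) atTop (𝓝 0) ∧
        ∀ᶠ k : ℕ in atTop, pq Q (2 * k) ≤ gr Q ^ (2 * k) * Real.exp (φ (2 * k))) ∧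
    (∀ k : List V, KClass (KT k)) ∧ KClass U ∧ CSum U ∧ ∃ w, SAP w ∧ U w := by
  refine ⟨fun Q hQ hne => ⟨fun hc r hr => Pool.Agent.N226.KZ.corC hQ hne hc r hr,
    fun c h r hr => Pool.Agent.N226.KZ.corP hQ hne c h r hr,
    fun A α hA h => Pool.Agent.N226.KZ.corF hQ hne hA h,
    fun φ h1 h2 h3 h4 h5 r hr => ?_, ?_⟩,
    GEN.kt_class, GEN.kt_class sq, GEN.u_csum, ⟨sqw, c_sq.2.1, Or.inl (Same.refl _)⟩⟩
  · obtain ⟨δ, C, hδ, -, h⟩ := Pool.Agent.N226.KZ.corA hQ hne ⟨h1, h2, h3, h4⟩ h5 r hr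
    exact ⟨δ, C, hδ, h⟩
  · obtain ⟨φ, R, h⟩ := Pool.Agent.N226.KZ.exists_rate hQ hne
    exact ⟨φ, R.mono, R.log, R.dbl, R.lim, h⟩

end Pool.Agent.Results.MP_aea6d5_co.AllOrders
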