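import Pool.Agent.N929.AC.Knot
import Pool.Agent.N226.KZ.CorC

/-!
# Lattice knots: analytic continuation of the generating functions
-/

set_option autoImplicit false

namespace Pool.Agent.Results.MP_aea6d5_co.AnalyticContinuation

open Finset Filter Topology KN

/-- `cos (2 arg z)` for `z ≠ 0` -/
noncomputable def cos2 (z : ℂ) : ℝ := (z ^ 2).re / ‖z‖ ^ 2

/-- The domain `|z| < (1 + δ (1 - cos (2 arg z))) / μ`: the disc of convergence enlarged at all
points of the circle of convergence except `±1/μ`. -/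
def Dom (μ δ : ℝ) : Set ℂ := {z | μ * ‖z‖ < 1 + δ * (1 - cos2 z)}

/-- Let `Q` be a class of knot types (for instance one knot type), `p_n = pq Q n` the number of
polygons of length `n` in `ℤ³`, up to translation, whose knot type is in `Q`, and `μ = gr Q` their
growth rate, the limit superior of `p_n^(1/n)` over the even `n`. The generating function
`∑ p_n z^n` extends holomorphically from the disc `|z| < 1/μ` to the connected open domain
`Dom μ δ`, for some `δ > 0`; the domain contains all points of the circle `|z| = 1/μ` except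
`z = 1/μ` and `z = -1/μ`. -/
theorem result :
    (∀ Q : List Dir → Prop, KClass Q → (∃ w, SAP w ∧ Q w) → 1 ≤ gr Q ∧ ∃ δ : ℝ, 0 < δ ∧
      (IsOpen (Dom (gr Q) δ) ∧ IsPreconnected (Dom (gr Q) δ) ∧
        (∀ z : ℂ, gr Q * ‖z‖ < 1 → z ∈ Dom (gr Q) δ) ∧
        ∀ z : ℂ, gr Q * ‖z‖ = 1 → z ≠ ((1 / gr Q : ℝ) : ℂ) → z ≠ ((-(1 / gr Q) : ℝ) : ℂ) →
          z ∈ Dom (gr Q) δ) ∧
      ∃ F : ℂ → ℂ, DifferentiableOn ℂ F (Dom (gr Q) δ) ∧
        ∀ z : ℂ, gr Q * ‖z‖ < 1 → HasSum (fun n => (pq Q n : ℂ) * z ^ n) (F z)) ∧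
    (∀ k : List V, KClass (KT k)) ∧ KClass U ∧ ∃ w, SAP w ∧ U w := by
  refine ⟨fun Q hQ hne => ?_, GEN.kt_class, GEN.kt_class sq,
    ⟨sqw, c_sq.2.1, Or.inl (Same.refl _)⟩⟩
  obtain ⟨hμ, δ, hδ, ⟨d1, d2, d3, d4⟩, F, h1, h2⟩ := Pool.Agent.N929.AC.knot_ac hQ hne
  refine ⟨hμ, δ, hδ, ⟨d1, d2, d3, fun z hz z1 z2 => ?_⟩, F, h1, h2⟩
  refine d4 z hz fun h3 => ?_
  have hn : ‖z‖ = 1 / gr Q := by field_simp; linarith
  rw [hn] at h3
  rcases sq_eq_sq_iff_eq_or_eq_neg.1 h3 with h4 | h4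
  · exact z1 h4
  · exact z2 (by rw [h4]; push_cast; rfl)

end Pool.Agent.Results.MP_aea6d5_co.AnalyticContinuation
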