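import Pool.Agent.N226.SX.Kn

/-!
# Lattice knots: asymptotic expansions along sparse lengths hold at all lengths, with differences
-/

set_option autoImplicit false

namespace Pool.Agent.Results.MP_aea6d5_co.ExpansionsFromSparseLengths

open Finset Filter Topology KN

/-- The expansion `β log n + ∑ c_i n ^ (-θ_i)`. -/
noncomputable def expansion (q : ℕ) (β : ℝ) (c θ : Fin q → ℝ) (n : ℕ) : ℝ :=
  β * Real.log n + ∑ i, c i * (n : ℝ) ^ (-(θ i))

/-- Let `Q` be a class of knot types (for instance one knot type), `p_n = pq Q n` the number of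
polygons of length `n` in `ℤ³` whose knot type is in `Q`, `μ = gr Q` their growth rate and
`F n = β log n + ∑ c_i n ^ (-θ_i)` a finite expansion with arbitrary real exponents `θ_i ≥ 0`.

Suppose that along a sequence of even lengths `n = 2 u_j`, where `u_j → ∞` and the gaps are at most
`u_j ^ α` for some `α < 1 / 2`, one has `log (p_n / μ ^ n) = F n + O (n ^ (-M))`, `M ≥ 0`. Then for
every `s ≥ 0` and every `b < 1 / 2` the `s`-th difference (with step two) of
`log (p_n / μ ^ n) - F n` is `O (n ^ (-M - b s))`, along all even `n`. For `s = 0` the expansion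
holds at all even lengths, with the same error term. -/
theorem result :
    (∀ Q : List Dir → Prop, KClass Q → (∃ w, SAP w ∧ Q w) →
      ∀ (q : ℕ) (β : ℝ) (c θ : Fin q → ℝ), (∀ i, 0 ≤ θ i) →
      ∀ M α : ℝ, 0 ≤ M → 0 ≤ α → α < 1 / 2 →
      ∀ u : ℕ → ℕ, Tendsto u atTop atTop →
      (∀ᶠ j : ℕ in atTop, (u (j + 1) : ℝ) ≤ u j + (u j : ℝ) ^ α) →
      (∃ C : ℝ, ∀ᶠ j : ℕ in atTop,
        |Real.log (pq Q (2 * u j) / gr Q ^ (2 * u j)) - expansion q β c θ (2 * u j)| ≤
          C * (u j : ℝ) ^ (-M)) →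
      ∀ (s : ℕ) (b : ℝ), 0 ≤ b → b < 1 / 2 → ∃ C : ℝ, ∀ᶠ k : ℕ in atTop,
        |∑ i ∈ range (s + 1), (-1 : ℝ) ^ i * (s.choose i : ℝ) *
          (Real.log (pq Q (2 * k + 2 * i) / gr Q ^ (2 * k + 2 * i)) -
            expansion q β c θ (2 * k + 2 * i))| ≤ C * (k : ℝ) ^ (-(M + b * s))) ∧
    (∀ k : List V, KClass (KT k)) :=
  ⟨fun _ hQ hne q β c θ hθ M α hM hα0 hα u hu hgap hval s b hb0 hb =>
    Pool.Agent.N226.SX.knots hQ hne q β c θ hθ M α hM hα0 hα u hu hgap hval s b hb0 hb,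
    GEN.kt_class⟩

end Pool.Agent.Results.MP_aea6d5_co.ExpansionsFromSparseLengths
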